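import Pool.Agent.L0h48.AV.Loc

/-! # Project AV, module LPU: tuples modulo the square of a prime, leading coefficient a unit -/

set_option autoImplicit false

namespace Pool.Agent.L0h48.AV

open Pool.Agent.N874.PP (Tup chA chB)
open Pool.Agent.N922.PQ (dsc)
open Pool.Agent.L0h45.AV

variable {p : ℕ} (hp : p.Prime)

include hp

theorem u_nat (h5 : 5 ≤ p) (k : ℤ) (hk : 0 < k) (hk5 : k < 5) :
    IsUnit ((k : ℤ) : ZMod (p ^ 2)) := by
  rw [unit_iff hp]
  intro h
  have h1 := Int.le_of_dvd hk h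
  have h2 : (5 : ℤ) ≤ p := by exact_mod_cast h5
  linarith

theorem n_sq {z : ZMod (p ^ 2)} (h : ¬ IsUnit z) : z ^ 2 = 0 := by
  rw [pow_two z]
  exact n_mul_n hp h h

theorem u_two (h5 : 5 ≤ p) : IsUnit (2 : ZMod (p ^ 2)) := by
  have := u_nat hp h5 2 (by norm_num) (by norm_num)
  exact_mod_cast this

theorem u_three (h5 : 5 ≤ p) : IsUnit (3 : ZMod (p ^ 2)) := by
  have := u_nat hp h5 3 (by norm_num) (by norm_num)
  exact_mod_cast this

/-- the tuples with `y = 0` -/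
theorem red_y (h5 : 5 ≤ p) (a b : ZMod (p ^ 2)) :
    Nat.card {T : Tup (ZMod (p ^ 2)) // IsUnit T.x ∧ chA T = a ∧ chB T = b} ≤
      p ^ 2 * Nat.card {q : ZMod (p ^ 2) × ZMod (p ^ 2) × ZMod (p ^ 2) //
        IsUnit q.1 ∧ q.1 * q.2.2 ^ 2 = 8 * q.2.1 ^ 3 + 2 * a * q.2.1 - b} := by
  have := fin_R hp
  have hu : ∀ T : Tup (ZMod (p ^ 2)), IsUnit T.x →
      2 * (Ring.inverse (2 * T.x) * T.y) * T.x = T.y := by
    intro T hT
    have h := Ring.mul_inverse_cancel (2 * T.x) ((u_two hp h5).mul hT)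
    linear_combination T.y * h
  have hq : ∀ T : {T : Tup (ZMod (p ^ 2)) // IsUnit T.x ∧ chA T = a ∧ chB T = b},
      T.1.x * (T.1.z - 6 * (Ring.inverse (2 * T.1.x) * T.1.y) * T.1.c -
        8 * (Ring.inverse (2 * T.1.x) * T.1.y) ^ 3 * T.1.x) ^ 2 =
      8 * (T.1.c + 2 * (Ring.inverse (2 * T.1.x) * T.1.y) ^ 2 * T.1.x) ^ 3 +
        2 * a * (T.1.c + 2 * (Ring.inverse (2 * T.1.x) * T.1.y) ^ 2 * T.1.x) - b := by
    rintro ⟨⟨x, y, c, z, w⟩, hx, hA, hB⟩
    have h := hu _ hx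
    simp only [chA, chB] at hA hB hx h ⊢
    generalize Ring.inverse (2 * x) * y = u at h ⊢
    subst hA hB h
    ring
  have key : Nat.card {T : Tup (ZMod (p ^ 2)) // IsUnit T.x ∧ chA T = a ∧ chB T = b} ≤
      Nat.card (ZMod (p ^ 2) × {q : ZMod (p ^ 2) × ZMod (p ^ 2) × ZMod (p ^ 2) //
        IsUnit q.1 ∧ q.1 * q.2.2 ^ 2 = 8 * q.2.1 ^ 3 + 2 * a * q.2.1 - b}) := by
    refine Nat.card_le_card_of_injective (fun T => (T.1.y, ⟨(T.1.x,
      T.1.c + 2 * (Ring.inverse (2 * T.1.x) * T.1.y) ^ 2 * T.1.x,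
      T.1.z - 6 * (Ring.inverse (2 * T.1.x) * T.1.y) * T.1.c -
        8 * (Ring.inverse (2 * T.1.x) * T.1.y) ^ 3 * T.1.x), T.2.1, hq T⟩)) ?_
    rintro ⟨⟨x, y, c, z, w⟩, hx, hA, hB⟩ ⟨⟨x', y', c', z', w'⟩, hx', hA', hB'⟩ h
    simp only [Prod.mk.injEq, Subtype.mk.injEq] at h
    obtain ⟨rfl, rfl, hc, hz⟩ := h
    have hc' : c = c' := by linear_combination hc
    subst hc'
    have hz' : z = z' := by linear_combination hz
    subst hz'
    simp only [chA] at hA hA' hx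
    have hw : x * (w - w') = 0 := by linear_combination hA' - hA
    have hw' : w = w' := sub_eq_zero.1 (hx.mul_right_eq_zero.1 hw)
    subst hw'
    rfl
  rw [Nat.card_prod, card_R hp] at key
  exact key

theorem card_q (a b : ZMod (p ^ 2)) :
    Nat.card {q : ZMod (p ^ 2) × ZMod (p ^ 2) × ZMod (p ^ 2) //
        IsUnit q.1 ∧ q.1 * q.2.2 ^ 2 = 8 * q.2.1 ^ 3 + 2 * a * q.2.1 - b} ≤
      Nat.card {c : ZMod (p ^ 2) // IsUnit (8 * c ^ 3 + 2 * a * c - b)} * (p * (p - 1)) +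
        p * (p - 1) * (Nat.card {c : ZMod (p ^ 2) // 8 * c ^ 3 + 2 * a * c - b = 0} * p) := by
  classical
  have := fin_R hp
  have key : Nat.card {q : ZMod (p ^ 2) × ZMod (p ^ 2) × ZMod (p ^ 2) //
        IsUnit q.1 ∧ q.1 * q.2.2 ^ 2 = 8 * q.2.1 ^ 3 + 2 * a * q.2.1 - b} ≤
      Nat.card (({c : ZMod (p ^ 2) // IsUnit (8 * c ^ 3 + 2 * a * c - b)} ×
        {z : ZMod (p ^ 2) // IsUnit z}) ⊕ ({x : ZMod (p ^ 2) // IsUnit x} ×
        ({c : ZMod (p ^ 2) // 8 * c ^ 3 + 2 * a * c - b = 0} × {z : ZMod (p ^ 2) // ¬ IsUnit z}))) := by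
    refine Nat.card_le_card_of_injective (fun q =>
      if h : IsUnit q.1.2.2 then
        Sum.inl (⟨q.1.2.1, by
          have := q.2.1.mul (h.pow 2)
          rw [q.2.2] at this
          exact this⟩, ⟨q.1.2.2, h⟩)
      else Sum.inr (⟨q.1.1, q.2.1⟩, ⟨q.1.2.1,
        q.2.2.symm.trans (by rw [n_sq hp h, mul_zero])⟩, ⟨q.1.2.2, h⟩)) ?_
    rintro ⟨⟨x, c, z⟩, hx, hq⟩ ⟨⟨x', c', z'⟩, hx', hq'⟩ h
    simp only at hx hx' hq hq'
    by_cases hz : IsUnit z <;> by_cases hz' : IsUnit z'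
    · simp only [hz, hz', dif_pos, Sum.inl.injEq, Prod.mk.injEq, Subtype.mk.injEq] at h
      obtain ⟨rfl, rfl⟩ := h
      have h1 : z ^ 2 * (x - x') = 0 := by linear_combination hq - hq'
      have h2 : x = x' := sub_eq_zero.1 ((hz.pow 2).mul_right_eq_zero.1 h1)
      subst h2
      rfl
    · simp only [hz, hz', dif_pos, dif_neg, not_false_iff, reduceCtorEq] at h
    · simp only [hz, hz', dif_pos, dif_neg, not_false_iff, reduceCtorEq] at h
    · simp only [hz, hz', dif_neg, not_false_iff, Sum.inr.injEq, Prod.mk.injEq,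
        Subtype.mk.injEq] at h
      obtain ⟨rfl, rfl, rfl⟩ := h
      rfl
  rw [Nat.card_sum, Nat.card_prod, Nat.card_prod, Nat.card_prod, card_U hp, card_N hp] at key
  exact key

/-- the roots of the cubic modulo `p` and modulo `p ^ 2` -/
theorem card_roots (h5 : 5 ≤ p) {a b : ℤ} (h : ¬ (p : ℤ) ^ 2 ∣ dsc a b) (α β : ZMod (p ^ 2))
    (hα : ((a : ℤ) : ZMod (p ^ 2)) = α) (hβ : ((b : ℤ) : ZMod (p ^ 2)) = β) :
    (Nat.card {c : ZMod (p ^ 2) // 8 * c ^ 3 + 2 * α * c - β = 0} +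
      (if (p : ℤ) ∣ dsc a b then 1 else 0)) * p ≤
    Nat.card {c : ZMod (p ^ 2) // ¬ IsUnit (8 * c ^ 3 + 2 * α * c - β)} := by
  classical
  have := fin_R hp
  have h2 := u_two hp h5
  -- the derivative at a root is a unit
  have hder : ∀ c : ZMod (p ^ 2), 8 * c ^ 3 + 2 * α * c - β = 0 →
      IsUnit (24 * c ^ 2 + 2 * α) := by
    intro c hc
    have h3 := disc_val hp h (2 * c) (by rw [hα, hβ]; linear_combination hc)
    rw [hα] at h3
    have h4 := h2.mul h3
    convert h4 using 1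
    ring
  have hval : ∀ c d : ZMod (p ^ 2), ¬ IsUnit d →
      8 * (c + d) ^ 3 + 2 * α * (c + d) - β =
      (8 * c ^ 3 + 2 * α * c - β) + (24 * c ^ 2 + 2 * α) * d := by
    intro c d hd
    have h3 := n_mul_n hp hd hd
    linear_combination (24 * c + 8 * d) * h3
  have hinj : ∀ c c' d d' : ZMod (p ^ 2), 8 * c ^ 3 + 2 * α * c - β = 0 →
      8 * c' ^ 3 + 2 * α * c' - β = 0 → ¬ IsUnit d → ¬ IsUnit d' →
      c + d = c' + d' → c = c' ∧ d = d' := by
    intro c c' d d' hc hc' hd hd' e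
    have e1 : ¬ IsUnit (d - d') := n_sub hp hd hd'
    have e2 : c' = c + (d - d') := by linear_combination -e
    have e3 := hval c (d - d') e1
    rw [← e2, hc, hc', zero_add] at e3
    have e4 := (hder c hc).mul_right_eq_zero.1 e3.symm
    rw [e4, add_zero] at e2
    exact ⟨e2.symm, sub_eq_zero.1 e4⟩
  by_cases hd : (p : ℤ) ∣ dsc a b
  · rw [if_pos hd]
    -- the double root
    have hae : IsUnit α := by
      rw [← hα, unit_iff hp]
      intro ha
      apply h
      obtain ⟨k, rfl⟩ := ha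
      have hb : (p : ℤ) ∣ 27 * b ^ 2 := by
        have e : 27 * b ^ 2 = dsc ((p : ℤ) * k) b - (p : ℤ) * (4 * (p : ℤ) ^ 2 * k ^ 3) := by
          unfold dsc
          ring
        rw [e]
        exact dvd_sub hd (Dvd.intro _ rfl)
      have hb' : (p : ℤ) ∣ b := by
        have hpi := Nat.prime_iff_prime_int.1 hp
        rcases hpi.dvd_or_dvd hb with h3 | h3
        · exfalso
          have h4 : (p : ℤ) ∣ 3 := by
            have : (27 : ℤ) = 3 ^ 3 := by norm_num
            rw [this] at h3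
            exact hpi.dvd_of_dvd_pow h3
          have h6 := Int.le_of_dvd (by norm_num) h4
          have h7 : (5 : ℤ) ≤ p := by exact_mod_cast h5
          linarith
        · exact hpi.dvd_of_dvd_pow h3
      obtain ⟨l, rfl⟩ := hb'
      refine ⟨4 * (p : ℤ) * k ^ 3 + 27 * l ^ 2, ?_⟩
      unfold dsc
      ring
    obtain ⟨r, hr⟩ : ∃ r : ZMod (p ^ 2), 4 * α * r = 3 * β := by
      refine ⟨Ring.inverse (4 * α) * (3 * β), ?_⟩
      have h4 : IsUnit (4 * α) := by
        have := (h2.mul h2).mul hae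
        convert this using 1
        ring
      have := Ring.mul_inverse_cancel _ h4
      linear_combination (3 * β) * this
    have hD : ¬ IsUnit (4 * α ^ 3 + 27 * β ^ 2) := by
      have e : (4 * α ^ 3 + 27 * β ^ 2) =
          ((dsc a b : ℤ) : ZMod (p ^ 2)) := by
        rw [← hα, ← hβ]
        unfold dsc
        push_cast
        ring
      rw [e, unit_iff hp, not_not]
      exact hd
    -- the value and the derivative at the double root
    have hr1 : ¬ IsUnit (24 * r ^ 2 + 2 * α) := by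
      intro hu
      apply hD
      have e : 2 * (4 * α ^ 3 + 27 * β ^ 2) =
          4 * α ^ 2 * (24 * r ^ 2 + 2 * α) := by
        linear_combination (-6 * (4 * α * r + 3 * β)) * hr
      have hu2 : IsUnit (4 * α ^ 2 * (24 * r ^ 2 + 2 * α)) := by
        refine IsUnit.mul ?_ hu
        have := (h2.mul h2).mul (hae.pow 2)
        convert this using 1
        ring
      rw [← e] at hu2
      exact isUnit_of_mul_isUnit_right hu2
    have hr2 : ¬ IsUnit (8 * r ^ 3 + 2 * α * r - β) := by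
      intro hu
      apply hr1
      have e : 3 * (8 * r ^ 3 + 2 * α * r - β) =
          r * (24 * r ^ 2 + 2 * α) := by
        linear_combination hr
      have hu2 := (u_three hp h5).mul hu
      rw [e] at hu2
      exact isUnit_of_mul_isUnit_right hu2
    have key : Nat.card (Option {c : ZMod (p ^ 2) // 8 * c ^ 3 + 2 * α * c - β = 0} ×
        {m : ZMod (p ^ 2) // ¬ IsUnit m}) ≤
        Nat.card {c : ZMod (p ^ 2) // ¬ IsUnit (8 * c ^ 3 + 2 * α * c - β)} := by
      have hmem : ∀ c m : ZMod (p ^ 2), ¬ IsUnit (8 * c ^ 3 + 2 * α * c - β) →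
          ¬ IsUnit m → ¬ IsUnit (8 * (c + m) ^ 3 + 2 * α * (c + m) - β) := by
        intro c m hc hm
        rw [hval c m hm]
        exact n_add hp hc (n_smul hp _ hm)
      have hne : ∀ c m m' : ZMod (p ^ 2), 8 * c ^ 3 + 2 * α * c - β = 0 →
          ¬ IsUnit m → ¬ IsUnit m' → r + m ≠ c + m' := by
        intro c m m' hc hm hm' e
        apply hr1
        have e1 : r = c + (m' - m) := by linear_combination e
        have e2 := hder c hc
        rw [e1]
        have e3 : 24 * (c + (m' - m)) ^ 2 + 2 * α =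
            (24 * c ^ 2 + 2 * α) + (48 * c + 24 * (m' - m)) * (m' - m) := by ring
        rw [e3]
        exact u_add hp e2 (n_smul hp _ (n_sub hp hm' hm))
      refine Nat.card_le_card_of_injective (fun q => match q with
        | (none, m) => ⟨r + m.1, hmem r m.1 hr2 m.2⟩
        | (some c, m) => ⟨c.1 + m.1, hmem c.1 m.1 (by rw [c.2]; exact n_zero hp) m.2⟩) ?_
      rintro ⟨_ | ⟨c, hc⟩, ⟨m, hm⟩⟩ ⟨_ | ⟨c', hc'⟩, ⟨m', hm'⟩⟩ e
      · have e1 : r + m = r + m' := congrArg Subtype.val e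
        have e2 : m = m' := add_left_cancel e1
        subst e2
        rfl
      · have e1 : r + m = c' + m' := congrArg Subtype.val e
        exact absurd e1 (hne c' m m' hc' hm hm')
      · have e1 : c + m = r + m' := congrArg Subtype.val e
        exact absurd e1.symm (hne c m' m hc hm' hm)
      · have e1 : c + m = c' + m' := congrArg Subtype.val e
        obtain ⟨e2, e3⟩ := hinj c c' m m' hc hc' hm hm' e1
        subst e2 e3
        rfl
    rw [Nat.card_prod, Finite.card_option, card_N hp] at key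
    exact key
  · rw [if_neg hd, add_zero]
    have key : Nat.card ({c : ZMod (p ^ 2) // 8 * c ^ 3 + 2 * α * c - β = 0} ×
        {m : ZMod (p ^ 2) // ¬ IsUnit m}) ≤
        Nat.card {c : ZMod (p ^ 2) // ¬ IsUnit (8 * c ^ 3 + 2 * α * c - β)} := by
      refine Nat.card_le_card_of_injective (fun q => ⟨q.1.1 + q.2.1, by
        rw [hval q.1.1 q.2.1 q.2.2, q.1.2, zero_add]
        exact n_smul hp _ q.2.2⟩) ?_
      rintro ⟨⟨c, hc⟩, ⟨m, hm⟩⟩ ⟨⟨c', hc'⟩, ⟨m', hm'⟩⟩ e
      have e1 : c + m = c' + m' := congrArg Subtype.val e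
      obtain ⟨e2, e3⟩ := hinj c c' m m' hc hc' hm hm' e1
      subst e2 e3
      rfl
    rw [Nat.card_prod, card_N hp] at key
    exact key

omit hp in
theorem t_LPU : S_LPU := by
  intro p hp h5 a b h
  have := fin_R hp
  have := fin_T hp
  have h1 := to_R hp (fun T : Tup (ZMod (p ^ 2)) => IsUnit T.x ∧ chA T = (a : ZMod (p ^ 2)) ∧
    chB T = (b : ZMod (p ^ 2)))
    {B | B ∈ Bo (p ^ 2) ∧ ¬ (p : ℤ) ∣ B.x ∧ (p : ℤ) ^ 2 ∣ chA B - a ∧ (p : ℤ) ^ 2 ∣ chB B - b}
    (fun B hB => hB.1) (fun B hB => by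
      obtain ⟨-, h1, h2, h3⟩ := hB
      refine ⟨(unit_iff hp B.x).2 h1, ?_, ?_⟩
      · rw [chA_cT, ← sub_eq_zero, ← Int.cast_sub, zero_iff hp]
        exact h2
      · rw [chB_cT, ← sub_eq_zero, ← Int.cast_sub, zero_iff hp]
        exact h3)
  refine h1.trans ?_
  have h2 := red_y hp h5 (a : ZMod (p ^ 2)) b
  have h3 := card_q hp (a : ZMod (p ^ 2)) b
  have h4 := card_roots hp h5 h _ _ rfl rfl
  have h6 := card_split hp (fun c : ZMod (p ^ 2) => IsUnit (8 * c ^ 3 + 2 * (a : ZMod (p ^ 2)) * c - (b : ZMod (p ^ 2))))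
  refine h2.trans ?_
  generalize Nat.card {q : ZMod (p ^ 2) × ZMod (p ^ 2) × ZMod (p ^ 2) //
        IsUnit q.1 ∧ q.1 * q.2.2 ^ 2 = 8 * q.2.1 ^ 3 + 2 * (a : ZMod (p ^ 2)) * q.2.1 - (b : ZMod (p ^ 2))} = K at h3 ⊢
  generalize Nat.card {c : ZMod (p ^ 2) // IsUnit (8 * c ^ 3 + 2 * (a : ZMod (p ^ 2)) * c - (b : ZMod (p ^ 2)))} = U
    at h3 h6
  generalize Nat.card {c : ZMod (p ^ 2) // ¬ IsUnit (8 * c ^ 3 + 2 * (a : ZMod (p ^ 2)) * c - (b : ZMod (p ^ 2)))} = N
    at h4 h6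
  generalize Nat.card {c : ZMod (p ^ 2) // 8 * c ^ 3 + 2 * (a : ZMod (p ^ 2)) * c - (b : ZMod (p ^ 2)) = 0} = R
    at h3 h4
  have h7 : K ≤ p ^ 2 * (p - 1) * (if (p : ℤ) ∣ dsc a b then p - 1 else p) := by
    refine h3.trans ?_
    obtain ⟨k, hk⟩ : ∃ k, p = k + 1 := ⟨p - 1, by omega⟩
    split_ifs at h4 ⊢ with hd
    · have e : U + R * p ≤ p * (p - 1) := by
        rw [hk] at h4 h6 ⊢
        simp only [Nat.add_sub_cancel]
        nlinarith
      calc U * (p * (p - 1)) + p * (p - 1) * (R * p) = (p * (p - 1)) * (U + R * p) := by ring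
        _ ≤ (p * (p - 1)) * (p * (p - 1)) := Nat.mul_le_mul_left _ e
        _ = _ := by ring
    · have e : U + R * p ≤ p * p := by
        nlinarith
      calc U * (p * (p - 1)) + p * (p - 1) * (R * p) = (p * (p - 1)) * (U + R * p) := by ring
        _ ≤ (p * (p - 1)) * (p * p) := Nat.mul_le_mul_left _ e
        _ = _ := by ring
  calc p ^ 2 * K ≤ p ^ 2 * (p ^ 2 * (p - 1) * (if (p : ℤ) ∣ dsc a b then p - 1 else p)) :=
        Nat.mul_le_mul_left _ h7
    _ = _ := by ring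

end Pool.Agent.L0h48.AV
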