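import Pool.Agent.L0h45.AV.Stm

/-! # Project AV: the ring of integers modulo the square of a prime -/

set_option autoImplicit false

namespace Pool.Agent.L0h48.AV

open Pool.Agent.N874.PP (Tup chA chB)
open Pool.Agent.N922.PQ (dsc)
open Pool.Agent.L0h45.AV

variable {p : ℕ} (hp : p.Prime)

include hp

theorem zero_iff (k : ℤ) : ((k : ℤ) : ZMod (p ^ 2)) = 0 ↔ (p : ℤ) ^ 2 ∣ k := by
  rw [ZMod.intCast_zmod_eq_zero_iff_dvd]
  push_cast
  rfl

theorem unit_iff (k : ℤ) : IsUnit ((k : ℤ) : ZMod (p ^ 2)) ↔ ¬ (p : ℤ) ∣ k := by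
  constructor
  · rintro hu ⟨j, rfl⟩
    have h0 : (((p : ℤ) * j : ℤ) : ZMod (p ^ 2)) * (((p : ℤ) : ℤ) : ZMod (p ^ 2)) = 0 := by
      rw [← Int.cast_mul, zero_iff hp]
      exact ⟨j, by ring⟩
    have h1 := hu.mul_right_eq_zero.1 h0
    rw [zero_iff hp] at h1
    have h2 : (0 : ℤ) < p := by exact_mod_cast hp.pos
    have h3 := Int.le_of_dvd h2 h1
    have h4 : (2 : ℤ) ≤ p := by exact_mod_cast hp.two_le
    nlinarith
  · intro h
    have hc : IsCoprime k ((p : ℤ) ^ 2) :=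
      ((Nat.prime_iff_prime_int.1 hp).coprime_iff_not_dvd.2 h).symm.pow_right
    obtain ⟨u, v, e⟩ := hc
    have h1 : ((u * k + v * (p : ℤ) ^ 2 : ℤ) : ZMod (p ^ 2)) = ((1 : ℤ) : ZMod (p ^ 2)) := by rw [e]
    have h2 : ((v * (p : ℤ) ^ 2 : ℤ) : ZMod (p ^ 2)) = 0 := (zero_iff hp _).2 ⟨v, by ring⟩
    rw [Int.cast_add, h2, add_zero, Int.cast_mul, Int.cast_one] at h1
    exact IsUnit.of_mul_eq_one ((u : ℤ) : ZMod (p ^ 2)) (by rw [mul_comm]; exact h1)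

theorem n_rep {m : ZMod (p ^ 2)} (h : ¬ IsUnit m) :
    ∃ k : ℤ, m = (((p : ℤ) * k : ℤ) : ZMod (p ^ 2)) := by
  obtain ⟨k, rfl⟩ := ZMod.intCast_surjective m
  rw [unit_iff hp, not_not] at h
  obtain ⟨j, rfl⟩ := h
  exact ⟨j, rfl⟩

theorem n_mul_n {m m' : ZMod (p ^ 2)} (h : ¬ IsUnit m) (h' : ¬ IsUnit m') : m * m' = 0 := by
  obtain ⟨k, rfl⟩ := n_rep hp h
  obtain ⟨k', rfl⟩ := n_rep hp h'
  rw [← Int.cast_mul, zero_iff hp]
  exact ⟨k * k', by ring⟩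

theorem n_add {m m' : ZMod (p ^ 2)} (h : ¬ IsUnit m) (h' : ¬ IsUnit m') : ¬ IsUnit (m + m') := by
  obtain ⟨k, rfl⟩ := n_rep hp h
  obtain ⟨k', rfl⟩ := n_rep hp h'
  rw [← Int.cast_add, unit_iff hp, not_not]
  exact ⟨k + k', by ring⟩

theorem n_zero : ¬ IsUnit (0 : ZMod (p ^ 2)) := by
  rw [← Int.cast_zero, unit_iff hp, not_not]
  exact dvd_zero _

theorem n_smul {m : ZMod (p ^ 2)} (r : ZMod (p ^ 2)) (h : ¬ IsUnit m) : ¬ IsUnit (r * m) := by
  intro hu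
  exact h (isUnit_of_mul_isUnit_right hu)

theorem n_neg {m : ZMod (p ^ 2)} (h : ¬ IsUnit m) : ¬ IsUnit (-m) := by
  rw [IsUnit.neg_iff]
  exact h

theorem n_sub {m m' : ZMod (p ^ 2)} (h : ¬ IsUnit m) (h' : ¬ IsUnit m') : ¬ IsUnit (m - m') := by
  rw [sub_eq_add_neg]
  exact n_add hp h (n_neg hp h')

theorem u_add {u m : ZMod (p ^ 2)} (h : IsUnit u) (h' : ¬ IsUnit m) : IsUnit (u + m) := by
  by_contra hc
  apply n_sub hp hc h'
  rw [add_sub_cancel_right]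
  exact h

theorem card_R : Nat.card (ZMod (p ^ 2)) = p ^ 2 := Nat.card_zmod _

theorem fin_R : Finite (ZMod (p ^ 2)) := by
  have : NeZero (p ^ 2) := ⟨pow_ne_zero 2 hp.ne_zero⟩
  infer_instance

theorem card_U : Nat.card {m : ZMod (p ^ 2) // IsUnit m} = p * (p - 1) := by
  have : NeZero (p ^ 2) := ⟨pow_ne_zero 2 hp.ne_zero⟩
  have e : (ZMod (p ^ 2))ˣ ≃ {m : ZMod (p ^ 2) // IsUnit m} :=
    Equiv.ofBijective (fun u => ⟨u.1, u.isUnit⟩)
      ⟨fun u v h => Units.ext (congrArg Subtype.val h), fun m => ⟨m.2.unit, Subtype.ext rfl⟩⟩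
  rw [← Nat.card_congr e, Nat.card_eq_fintype_card, ZMod.card_units_eq_totient,
    Nat.totient_prime_pow hp (by norm_num)]
  norm_num

theorem card_split (Q : ZMod (p ^ 2) → Prop) :
    Nat.card {c // Q c} + Nat.card {c // ¬ Q c} = p ^ 2 := by
  classical
  have := fin_R hp
  rw [← Nat.card_sum, Nat.card_congr (Equiv.sumCompl Q), card_R hp]

theorem card_N : Nat.card {m : ZMod (p ^ 2) // ¬ IsUnit m} = p := by
  have h1 := card_split hp (fun m : ZMod (p ^ 2) => IsUnit m)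
  rw [card_U hp] at h1
  obtain ⟨k, hk⟩ : ∃ k, p = k + 1 := ⟨p - 1, by have := hp.pos; omega⟩
  rw [hk] at h1 ⊢
  simp only [Nat.add_sub_cancel] at h1
  nlinarith

theorem card_N0 : Nat.card {m : ZMod (p ^ 2) // ¬ IsUnit m ∧ m ≠ 0} ≤ p - 1 := by
  have := fin_R hp
  have h1 : Nat.card (Option {m : ZMod (p ^ 2) // ¬ IsUnit m ∧ m ≠ 0}) ≤
      Nat.card {m : ZMod (p ^ 2) // ¬ IsUnit m} := by
    refine Nat.card_le_card_of_injective
      (fun o => match o with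
        | none => ⟨0, n_zero hp⟩
        | some m => ⟨m.1, m.2.1⟩) ?_
    intro o o' h
    rcases o with _ | m <;> rcases o' with _ | m'
    · rfl
    · exact absurd (congrArg Subtype.val h).symm m'.2.2
    · exact absurd (congrArg Subtype.val h) m.2.2
    · have := congrArg Subtype.val h
      exact congrArg some (Subtype.ext this)
  rw [Finite.card_option, card_N hp] at h1
  omega

omit hp in
/-- reduction of tuples -/
def cT (p : ℕ) (B : Tup ℤ) : Tup (ZMod (p ^ 2)) := ⟨B.x, B.y, B.c, B.z, B.w⟩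

omit hp in
theorem chA_cT (B : Tup ℤ) : chA (cT p B) = ((chA B : ℤ) : ZMod (p ^ 2)) := by
  simp only [chA, cT]
  push_cast
  ring

omit hp in
theorem chB_cT (B : Tup ℤ) : chB (cT p B) = ((chB B : ℤ) : ZMod (p ^ 2)) := by
  simp only [chB, cT]
  push_cast
  ring

theorem to_R (P : Tup (ZMod (p ^ 2)) → Prop) (S : Set (Tup ℤ)) (hS : ∀ B ∈ S, B ∈ Bo (p ^ 2))
    (hP : ∀ B ∈ S, P (cT p B)) [Finite {T // P T}] :
    S.ncard ≤ Nat.card {T : Tup (ZMod (p ^ 2)) // P T} := by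
  rw [← Nat.card_coe_set_eq]
  refine Nat.card_le_card_of_injective (fun B : S => (⟨cT p B.1, hP B.1 B.2⟩ :
    {T : Tup (ZMod (p ^ 2)) // P T})) ?_
  rintro ⟨B, hB⟩ ⟨B', hB'⟩ h
  have h1 : cT p B = cT p B' := congrArg Subtype.val h
  obtain ⟨x1, x2, y1, y2, c1, c2, z1, z2, w1, w2⟩ := hS B hB
  obtain ⟨x1', x2', y1', y2', c1', c2', z1', z2', w1', w2'⟩ := hS B' hB'
  have key : ∀ u v : ℤ, 0 ≤ u → u < ((p ^ 2 : ℕ) : ℤ) → 0 ≤ v → v < ((p ^ 2 : ℕ) : ℤ) →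
      ((u : ℤ) : ZMod (p ^ 2)) = ((v : ℤ) : ZMod (p ^ 2)) → u = v := by
    intro u v hu1 hu2 hv1 hv2 huv
    rw [← sub_eq_zero, ← Int.cast_sub, ZMod.intCast_zmod_eq_zero_iff_dvd] at huv
    have := Int.eq_zero_of_abs_lt_dvd huv (by rw [abs_lt]; constructor <;> linarith)
    linarith
  apply Subtype.ext
  show B = B'
  ext
  · exact key _ _ x1 x2 x1' x2' (congrArg Tup.x h1)
  · exact key _ _ y1 y2 y1' y2' (congrArg Tup.y h1)
  · exact key _ _ c1 c2 c1' c2' (congrArg Tup.c h1)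
  · exact key _ _ z1 z2 z1' z2' (congrArg Tup.z h1)
  · exact key _ _ w1 w2 w1' w2' (congrArg Tup.w h1)

theorem fin_T : Finite (Tup (ZMod (p ^ 2))) := by
  have := fin_R hp
  refine Finite.of_injective (fun T : Tup (ZMod (p ^ 2)) => (T.x, T.y, T.c, T.z, T.w)) ?_
  intro T T' h
  simp only [Prod.mk.injEq] at h
  obtain ⟨h1, h2, h3, h4, h5⟩ := h
  ext <;> assumption

/-- the discriminant as a combination of the values of the cubic and of its derivative -/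
theorem disc_val {a b : ℤ} (h : ¬ (p : ℤ) ^ 2 ∣ dsc a b) (c : ZMod (p ^ 2))
    (h1 : c ^ 3 + a * c - b = 0) : IsUnit (3 * c ^ 2 + (a : ZMod (p ^ 2))) := by
  by_contra hc
  apply h
  rw [← zero_iff hp]
  have h2 := n_mul_n hp hc hc
  have e : ((dsc a b : ℤ) : ZMod (p ^ 2)) = 4 * (a : ZMod (p ^ 2)) ^ 3 + 27 * (b : ZMod (p ^ 2)) ^ 2 := by
    unfold dsc
    push_cast
    ring
  rw [e]
  linear_combination (4 * (3 * c ^ 2 + (a : ZMod (p ^ 2))) - 9 * c ^ 2) * h2 -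
    27 * (c ^ 3 + a * c - b + 2 * b) * h1

end Pool.Agent.L0h48.AV
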